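import Pool.Agent.KS6_97.SV.Full

/-!
# The spectral variation constants of commuting Hermitian tuples are at most `(1 + o(1)) √K`

Let `A`, `B` be `K`-tuples of commuting Hermitian `n × n` matrices with joint eigenvalues `α_j`,
`β_j`. We prove that they can be matched with
`|α_j - β_σ(j)| ≤ s / (1 - 2 P(|G| ≥ s)) ‖A - B‖`, `G` a standard Gaussian vector of `ℝ^K`, for every
`s > 0` with `P(|G| ≥ s) < 1/2`. Hence `C_K ≤ √K + O(√(log K))`, while all the earlier bounds are
linear in `K` (the best one is `C_K ≤ 2.206 K`), and the bound `√K` is the one which has been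
suggested. For pairs (`K = 2`) and for normal matrices we prove the bound `9/4`; the best published
constant for normal matrices is `2.9039` (Bhatia, Davis, Koosis).

Idea of the proof. The matrix function `Φ(t) = exp(-i t·A) exp(i t·B)` on `ℝ^K` is unitary and its
gradient (as a column of `K` matrices) has norm at most `‖A - B‖`, so by the Gaussian Poincaré
inequality its mean `M` for the Gaussian law of covariance `s² I` satisfies
`|M x|² ≥ (1 - s² ‖A - B‖²) |x|²`: here the norm of the tuple is used in full, and not only through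
its sections `v·(A - B)`. If there is no matching at the distance `1`, then by Hall's theorem there
are sets `S`, `T` of joint eigenvalues of `A` and of `B`, at the distance at least `1`, with more than
`n` elements in all. The block of `M` from `T` to `S` is the Schur multiple of the block of the
identity by the kernel `exp(-s² |α - β|² / 2)`, which is the inner product of Gaussian wave packets
at `α` and `β`; cutting `ℝ^K` by the `1/2`-neighbourhood of `S` one sees that its norm is at most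
`2 √(t (1 - t))`, `t = P(|G| ≥ s)`. If `s ‖A - B‖ < 1 - 2 t` it follows that `M` maps the eigenvectors
of `T` injectively to the ones outside `S`, which is impossible by dimension.

The case `K = 2` (by helper95) uses a kernel on the disc. (The order `√K` was found independently,
with another kernel, by helper62.)
-/

set_option autoImplicit false

open scoped ENNReal ComplexConjugate

namespace Pool.Agent.Results.MP_434093_an.SquareRootBound

/-- The square of the Euclidean norm of a vector of `ℂ^n`. -/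
noncomputable def sqNorm {n : ℕ} (x : Fin n → ℂ) : ℝ := ∑ i, ‖x i‖ ^ 2

/-- `u 1, …, u n` is an orthonormal basis of `ℂ^n`. -/
def IsOrthonormalBasis {n : ℕ} (u : Fin n → Fin n → ℂ) : Prop :=
  ∀ j l, ∑ i, conj (u j i) * u l i = if j = l then 1 else 0

/-- A `K`-tuple: pairwise commuting Hermitian complex `n × n` matrices `A 1, …, A K`. -/
structure IsTuple {K n : ℕ} (A : Fin K → Matrix (Fin n) (Fin n) ℂ) : Prop where
  hermitian : ∀ J, (A J).IsHermitian
  commute : ∀ I J, A I * A J = A J * A I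

/-- `α j ∈ ℝ^K` (`j = 1, …, n`) are the joint eigenvalues of `A`, listed with multiplicity: there is
an orthonormal basis `u` of `ℂ^n` with `A J (u j) = α j J • u j` for all `J` and `j`. -/
def IsJointSpectrum {K n : ℕ} (A : Fin K → Matrix (Fin n) (Fin n) ℂ)
    (α : Fin n → EuclideanSpace ℝ (Fin K)) : Prop :=
  ∃ u : Fin n → Fin n → ℂ, IsOrthonormalBasis u ∧ ∀ J j i, (A J).mulVec (u j) i = α j J * u j i

/-- The optimal matching distance `min_σ max_j |α j - β (σ j)|`, `σ` a permutation. -/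
noncomputable def matchingDistance {K n : ℕ} (α β : Fin n → EuclideanSpace ℝ (Fin K)) : ℝ :=
  ⨅ σ : Equiv.Perm (Fin n), ⨆ j, ‖α j - β (σ j)‖

/-- `‖D‖`: the operator norm of the map `x ↦ (D 1 x, …, D K x)` from `ℂ^n` to `(ℂ^n)^K`, that is, the
least `c ≥ 0` with `∑ J, |D J x|² ≤ c² |x|²` for all `x ∈ ℂ^n`. -/
noncomputable def tupleNorm {K n : ℕ} (D : Fin K → Matrix (Fin n) (Fin n) ℂ) : ℝ :=
  sInf {c : ℝ | 0 ≤ c ∧ ∀ x : Fin n → ℂ, ∑ J, sqNorm ((D J).mulVec x) ≤ c ^ 2 * sqNorm x}

/-- `C` is a constant as in the problem: `δ(A, B) ≤ C ‖A - B‖` for all `n ≥ 1` and all `K`-tuples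
`A`, `B` of `n × n` matrices. -/
def IsBound (K : ℕ) (C : ℝ≥0∞) : Prop :=
  ∀ (n : ℕ) (A B : Fin K → Matrix (Fin n) (Fin n) ℂ) (α β : Fin n → EuclideanSpace ℝ (Fin K)),
    1 ≤ n → IsTuple A → IsTuple B → IsJointSpectrum A α → IsJointSpectrum B β →
    ENNReal.ofReal (matchingDistance α β) ≤ C * ENNReal.ofReal (tupleNorm (fun J => A J - B J))

/-- The constant `C_K`: the smallest `C` (possibly infinite) with `δ(A, B) ≤ C ‖A - B‖`. -/
noncomputable def spectralConstant (K : ℕ) : ℝ≥0∞ := sInf {C | IsBound K C}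

/-- The probability of `|G| ≥ s` for a standard Gaussian vector `G` of `ℝ^K`. -/
noncomputable def gaussOutside (K : ℕ) (s : ℝ) : ℝ :=
  (∫ v in {v : EuclideanSpace ℝ (Fin K) | s ≤ ‖v‖}, Real.exp (-‖v‖ ^ 2 / 2)) /
    ∫ v : EuclideanSpace ℝ (Fin K), Real.exp (-‖v‖ ^ 2 / 2)

/-- The bound `s / (1 - 2 P(|G| ≥ s))`. -/
noncomputable def gaussBound (K : ℕ) (s : ℝ) : ℝ := s / (1 - 2 * gaussOutside K s)

/-- The bound `(√K + √(2x)) / (1 - 2 e^{-x})`. -/
noncomputable def expBound (K : ℕ) (x : ℝ) : ℝ :=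
  (Real.sqrt K + Real.sqrt (2 * x)) / (1 - 2 * Real.exp (-x))

/-- `C_K ≤ c`. -/
def ConstLe (K : ℕ) (c : ℝ) : Prop := spectralConstant K ≤ ENNReal.ofReal c

/-- `a j ∈ ℂ` (`j = 1, …, n`) are the eigenvalues of the normal matrix `M`, listed with multiplicity:
there is an orthonormal basis `u` of `ℂ^n` with `M (u j) = a j • u j` for all `j`. -/
def IsNormalSpectrum {n : ℕ} (M : Matrix (Fin n) (Fin n) ℂ) (a : Fin n → ℂ) : Prop :=
  ∃ u : Fin n → Fin n → ℂ, IsOrthonormalBasis u ∧ ∀ j i, M.mulVec (u j) i = a j * u j i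

/-- The operator norm of a matrix: the least `c ≥ 0` with `|M x|² ≤ c² |x|²` for all `x ∈ ℂ^n`. -/
noncomputable def opNorm {n : ℕ} (M : Matrix (Fin n) (Fin n) ℂ) : ℝ :=
  sInf {c : ℝ | 0 ≤ c ∧ ∀ x : Fin n → ℂ, sqNorm (M.mulVec x) ≤ c ^ 2 * sqNorm x}

/-- The two lists can be matched with distances at most `r`. -/
def Matched {n : ℕ} {E : Type} [NormedAddCommGroup E] (α β : Fin n → E) (r : ℝ) : Prop :=
  ∃ σ : Equiv.Perm (Fin n), ∀ j, ‖α j - β (σ j)‖ ≤ r

/-- For all `n`, the joint eigenvalues of any two `K`-tuples `A`, `B` of `n × n` matrices can be matched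
with distances at most `c ‖A - B‖`. -/
def TupleBound (K : ℕ) (c : ℝ) : Prop :=
  ∀ (n : ℕ) (A B : Fin K → Matrix (Fin n) (Fin n) ℂ) (α β : Fin n → EuclideanSpace ℝ (Fin K)),
    IsTuple A → IsTuple B → IsJointSpectrum A α → IsJointSpectrum B β →
    Matched α β (c * tupleNorm (fun J => A J - B J))

/-- For all `n`, the eigenvalues of any two normal `n × n` matrices `M`, `N` can be matched with
distances at most `c ‖M - N‖`. -/
def NormalBound (c : ℝ) : Prop :=
  ∀ (n : ℕ) (M N : Matrix (Fin n) (Fin n) ℂ) (a b : Fin n → ℂ),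
    IsNormalSpectrum M a → IsNormalSpectrum N b → Matched a b (c * opNorm (M - N))

/-! ### Comparison with Mathlib's notions -/

open Pool.Agent.KS6_97.SV

lemma sqNorm_eq {n : ℕ} (x : Fin n → ℂ) :
    sqNorm x = ‖(WithLp.toLp 2 x : EuclideanSpace ℂ (Fin n))‖ ^ 2 := by
  rw [EuclideanSpace.norm_sq_eq]; rfl

lemma basis_of {n : ℕ} {u : Fin n → Fin n → ℂ} (hu : IsOrthonormalBasis u) :
    ∃ v : OrthonormalBasis (Fin n) ℂ (EuclideanSpace ℂ (Fin n)), ∀ j, v j = WithLp.toLp 2 (u j) := by
  have hon : Orthonormal ℂ (fun j => (WithLp.toLp 2 (u j) : EuclideanSpace ℂ (Fin n))) := by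
    rw [orthonormal_iff_ite]
    intro j l
    rw [← hu j l]
    simp [PiLp.inner_apply, mul_comm]
  have hsp : ⊤ ≤ Submodule.span ℂ
      (Set.range fun j => (WithLp.toLp 2 (u j) : EuclideanSpace ℂ (Fin n))) := by
    rw [hon.linearIndependent.span_eq_top_of_card_eq_finrank' (by simp)]
  exact ⟨OrthonormalBasis.mk hon hsp, fun j => by rw [OrthonormalBasis.coe_mk]⟩

lemma of_basis {n : ℕ} (v : OrthonormalBasis (Fin n) ℂ (EuclideanSpace ℂ (Fin n))) :
    IsOrthonormalBasis (fun j => (v j).ofLp) := by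
  intro j l
  have h := orthonormal_iff_ite.mp v.orthonormal j l
  rw [← h]
  simp [PiLp.inner_apply, mul_comm]

lemma joint_full {K n : ℕ} {A : Fin K → Matrix (Fin n) (Fin n) ℂ}
    {α : Fin n → EuclideanSpace ℝ (Fin K)} (h : IsJointSpectrum A α) :
    Full.IsJointSpectrum A α := by
  obtain ⟨u, hu, h⟩ := h
  obtain ⟨v, hv⟩ := basis_of hu
  refine ⟨v, fun J j => ?_⟩
  rw [hv]
  ext i
  exact h J j i

lemma full_joint {K n : ℕ} {A : Fin K → Matrix (Fin n) (Fin n) ℂ}
    {α : Fin n → EuclideanSpace ℝ (Fin K)} (h : Full.IsJointSpectrum A α) :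
    IsJointSpectrum A α := by
  obtain ⟨v, h⟩ := h
  refine ⟨_, of_basis v, fun J j i => ?_⟩
  exact congrFun (congrArg WithLp.ofLp (h J j)) i

lemma normal_full {n : ℕ} {M : Matrix (Fin n) (Fin n) ℂ} {a : Fin n → ℂ}
    (h : IsNormalSpectrum M a) : Full.IsNormalSpectrum M a := by
  obtain ⟨u, hu, h⟩ := h
  obtain ⟨v, hv⟩ := basis_of hu
  refine ⟨v, fun j => ?_⟩
  rw [hv]
  ext i
  exact h j i

lemma tuple_full {K n : ℕ} {A : Fin K → Matrix (Fin n) (Fin n) ℂ} (h : IsTuple A) :
    Full.IsTuple A := ⟨h.hermitian, h.commute⟩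

lemma tupleNorm_eq {K n : ℕ} (D : Fin K → Matrix (Fin n) (Fin n) ℂ) :
    tupleNorm D = Full.tupleNorm D := by
  unfold tupleNorm Full.tupleNorm
  congr 1
  ext c
  refine and_congr_right fun hc => ⟨fun h x => ?_, fun h x => ?_⟩
  · have := h x.ofLp
    simp only [sqNorm_eq] at this
    rw [← Real.sqrt_sq (by positivity : 0 ≤ c * ‖x‖), mul_pow]
    exact Real.sqrt_le_sqrt this
  · have := h (WithLp.toLp 2 x)
    rw [Real.sqrt_le_left (by positivity), mul_pow] at this
    simp only [sqNorm_eq]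
    exact this

lemma opNorm_eq {n : ℕ} (M : Matrix (Fin n) (Fin n) ℂ) : opNorm M = Full.opNorm M := by
  have hset : {c : ℝ | 0 ≤ c ∧ ∀ x : Fin n → ℂ, sqNorm (M.mulVec x) ≤ c ^ 2 * sqNorm x}
      = {c : ℝ | 0 ≤ c ∧ ∀ x : EuclideanSpace ℂ (Fin n),
        ‖LinearMap.toContinuousLinearMap (Matrix.toEuclideanLin M) x‖ ≤ c * ‖x‖} := by
    ext c
    refine and_congr_right fun hc => ⟨fun h x => ?_, fun h x => ?_⟩
    · have := h x.ofLp
      simp only [sqNorm_eq] at this
      rw [← mul_pow] at this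
      exact le_of_sq_le_sq this (by positivity)
    · have := pow_le_pow_left₀ (norm_nonneg _) (h (WithLp.toLp 2 x)) 2
      rw [mul_pow] at this
      simp only [sqNorm_eq]
      exact this
  unfold opNorm Full.opNorm
  rw [hset, ContinuousLinearMap.norm_def]

lemma const_eq (K : ℕ) : spectralConstant K ≤ Full.spectralConstant K := by
  unfold spectralConstant Full.spectralConstant
  refine sInf_le_sInf fun C hC => ?_
  intro n A B α β hn hA hB hα hβ
  rw [tupleNorm_eq]
  exact hC n A B α β hn (tuple_full hA) (tuple_full hB) (joint_full hα) (joint_full hβ)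

/-- **Main theorem.**
(1) Every tuple has a list of joint eigenvalues.
(2) For all `s > 0` with `P(|G| ≥ s) < 1/2` the joint eigenvalues of any two `K`-tuples `A`, `B` can be
matched with distances at most `s / (1 - 2 P(|G| ≥ s)) ‖A - B‖`, and `C_K ≤ s / (1 - 2 P(|G| ≥ s))`.
(3) `C_K ≤ (√K + √(2x)) / (1 - 2 e^{-x})` for all `x > log 2`; (4) `C_K < ∞`; (5) `C_K ≤ 2.7 √K` for all
`K ≥ 2`; (6) `limsup C_K / √K ≤ 1`; (7) `C_2 ≤ 9/4`.
(8) The eigenvalues of any two normal matrices `M`, `N` can be matched with distances at most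
`(9/4) ‖M - N‖`. -/
theorem result :
    (∀ (K n : ℕ) (A : Fin K → Matrix (Fin n) (Fin n) ℂ), IsTuple A → ∃ α, IsJointSpectrum A α) ∧
    (∀ (K : ℕ) (s : ℝ), 0 < s → gaussOutside K s < 1 / 2 →
      TupleBound K (gaussBound K s) ∧ ConstLe K (gaussBound K s)) ∧
    (∀ K : ℕ, 1 ≤ K → (∀ x : ℝ, Real.log 2 < x → ConstLe K (expBound K x)) ∧
      spectralConstant K < ⊤) ∧
    (∀ K : ℕ, 2 ≤ K → ConstLe K (27 / 10 * Real.sqrt K)) ∧
    (∀ η : ℝ, 0 < η → ∃ K₀ : ℕ, ∀ K : ℕ, K₀ ≤ K → ConstLe K ((1 + η) * Real.sqrt K)) ∧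
    ConstLe 2 (9 / 4) ∧ NormalBound (9 / 4) := by
  have h4 : ∀ K : ℕ, 1 ≤ K → ∀ x : ℝ, Real.log 2 < x → ConstLe K (expBound K x) :=
    fun K hK x hx => (const_eq K).trans (Full.const_explicit K hK x hx)
  have h7 : spectralConstant 2 ≤ ENNReal.ofReal (9 / 4) :=
    (const_eq 2).trans (Full.const_le _ (by norm_num) fun _ A B α β hA _ hα hβ =>
      Full.pairs A B α β hA hα hβ)
  refine ⟨fun K n A hA => ?_, fun K s hs hT => ⟨fun n A B α β hA _ hα hβ => ?_,
      (const_eq K).trans (Full.const_gauss K s hs hT)⟩, fun K hK => ⟨h4 K hK, ?_⟩, ?_, ?_, h7,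
      fun n M N a b ha hb => ?_⟩
  · obtain ⟨α, hα⟩ := Full.exists_jointSpectrum (tuple_full hA)
    exact ⟨α, full_joint hα⟩
  · obtain ⟨σ, hσ⟩ := Full.general A B α β (tuple_full hA) (joint_full hα) (joint_full hβ) s hs hT
    refine ⟨σ, fun j => ?_⟩
    rw [tupleNorm_eq]
    exact hσ j
  · have hx : Real.log 2 < 1 := by
      have := Real.log_two_lt_d9; linarith
    exact (h4 K hK 1 hx).trans_lt ENNReal.ofReal_lt_top
  · intro K hK
    rcases Nat.lt_or_ge 2 K with h | h
    · have hx : Real.log 2 < 3 := by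
        have := Real.log_two_lt_d9; linarith
      refine (h4 K (by omega) 3 hx).trans (ENNReal.ofReal_le_ofReal ?_)
      have hK3 : (3 : ℝ) ≤ K := by exact_mod_cast h
      have he : Real.exp (-3) < 0.04979 := by
        have h1 : (2.7182818283 : ℝ) < Real.exp 1 := Real.exp_one_gt_d9
        have h2 : Real.exp (-3) = (Real.exp 1 ^ 3)⁻¹ := by
          rw [← Real.exp_nat_mul, ← Real.exp_neg]; norm_num
        rw [h2]
        have h3 : (2.7182818283 : ℝ) ^ 3 < Real.exp 1 ^ 3 := pow_lt_pow_left₀ h1 (by norm_num) (by norm_num)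
        calc (Real.exp 1 ^ 3)⁻¹ < ((2.7182818283 : ℝ) ^ 3)⁻¹ := by
              apply inv_strictAnti₀ (by positivity) h3
          _ < 0.04979 := by norm_num
      have hs : Real.sqrt (2 * 3) ≤ 1.4143 * Real.sqrt K := by
        rw [show (1.4143 : ℝ) * Real.sqrt K = Real.sqrt (1.4143 ^ 2 * K) by
          rw [Real.sqrt_mul (by positivity), Real.sqrt_sq (by norm_num)]]
        apply Real.sqrt_le_sqrt
        nlinarith
      have hsK : 0 ≤ Real.sqrt K := Real.sqrt_nonneg _
      unfold expBound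
      rw [div_le_iff₀ (by linarith)]
      nlinarith
    · have h2 : K = 2 := le_antisymm h hK
      subst h2
      refine h7.trans (ENNReal.ofReal_le_ofReal ?_)
      push_cast
      have : (1 : ℝ) ≤ Real.sqrt 2 := by
        rw [show (1 : ℝ) = Real.sqrt 1 by simp]
        exact Real.sqrt_le_sqrt (by norm_num)
      linarith
  · intro η hη
    set x := Real.log (4 * (1 + η) / η) with hx
    have h41 : 4 < 4 * (1 + η) / η := by rw [lt_div_iff₀ hη]; linarith
    have hx2 : Real.log 2 < x := Real.log_lt_log (by norm_num) (by linarith)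
    have hx0 : 0 < x := (Real.log_pos (by norm_num)).trans hx2
    have hex : Real.exp (-x) = η / (4 * (1 + η)) := by
      rw [Real.exp_neg, hx, Real.exp_log (by positivity), inv_div]
    refine ⟨⌈8 * x / η ^ 2⌉₊ + 1, fun K hK => ?_⟩
    have hK1 : 1 ≤ K := by omega
    have hK2 : 8 * x / η ^ 2 ≤ K := by
      have h1 := Nat.le_ceil (8 * x / η ^ 2)
      have h2 : ((⌈8 * x / η ^ 2⌉₊ + 1 : ℕ) : ℝ) ≤ K := by exact_mod_cast hK
      push_cast at h2; linarith
    refine (h4 K hK1 x hx2).trans (ENNReal.ofReal_le_ofReal ?_)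
    have hs : Real.sqrt (2 * x) ≤ η / 2 * Real.sqrt K := by
      rw [show η / 2 * Real.sqrt K = Real.sqrt ((η / 2) ^ 2 * K) by
        rw [Real.sqrt_mul (by positivity), Real.sqrt_sq (by positivity)]]
      apply Real.sqrt_le_sqrt
      rw [div_le_iff₀ (by positivity)] at hK2
      nlinarith
    have hq : (1 - 2 * Real.exp (-x)) * (1 + η) = 1 + η / 2 := by
      rw [hex]; field_simp; ring
    have hq0 : 0 < 1 - 2 * Real.exp (-x) := by
      have : 0 < (1 - 2 * Real.exp (-x)) * (1 + η) := by rw [hq]; positivity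
      by_contra hle
      push Not at hle
      have h5 : (1 - 2 * Real.exp (-x)) * (1 + η) ≤ 0 :=
        mul_nonpos_of_nonpos_of_nonneg hle (by linarith)
      linarith
    unfold expBound
    rw [div_le_iff₀ hq0]
    have : (1 + η) * Real.sqrt K * (1 - 2 * Real.exp (-x))
        = (1 + η / 2) * Real.sqrt K := by rw [← hq]; ring
    rw [this]; linarith
  · obtain ⟨σ, hσ⟩ := Full.normals M N a b (normal_full ha) (normal_full hb)
    refine ⟨σ, fun j => ?_⟩
    rw [opNorm_eq]
    exact hσ j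

end Pool.Agent.Results.MP_434093_an.SquareRootBound
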